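import Pool.Agent.N983.RT.SUM
import Pool.Agent.N983.RT.ALG
import Pool.Agent.N983.RT.SHL
import Pool.Agent.N983.RT.EST
import Pool.Agent.N983.RT.ODE
import Pool.Agent.N983.RT.RHS
import Pool.Agent.N983.RT.CS
import Pool.Agent.N983.RT.IND
import Pool.Agent.N983.RT.ESY
import Pool.Agent.N983.RT.TAIL
import Pool.Agent.N983.RT.LAT
import Pool.Agent.N983.RT.BCD
import Pool.Agent.N983.WK.CVB
import Pool.Agent.N983.WK.PRB
import Pool.Agent.N983.WK.TRB
import Pool.Agent.N983.WK.ANT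
import Pool.Agent.N983.WK.BAL
import Pool.Agent.N983.WK.SQ
import Pool.Agent.N983.WK.MSB
import Pool.Agent.N983.WK.GRO
import Pool.Agent.N983.WK.STB
import Pool.Agent.N983.WK.FX1
import Pool.Agent.N983.WK.EEQ
import Pool.Agent.N983.WK.ENT
import Pool.Agent.N983.WK.SMT
import Pool.Agent.N983.WK.CPT
import Pool.Agent.N983.WK.VT
import Pool.Agent.N983.WK.VE
import Pool.Agent.N983.WK.Asm7

/-!
Randomly decimated Navier-Stokes equations on the torus `(ℝ / 2πℤ) ^ 3` (fractal Fourier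
decimation): every pair `k, -k` of opposite wave vectors is kept, independently of the others, with
probability at most `|k| ^ (-a)`, and the equations are projected on the wave vectors which are kept.
Their number in a ball of radius `R` is about `R ^ (3 - a)`.

Almost surely all weak solutions which are bounded in the Sobolev space `H ^ σ` and have the same
initial value coincide, and they are smooth for positive times. Neither the energy inequality nor
finite dissipation is assumed. For `α = 1` the conditions are `a > 1 / 3`, that is dimension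
`3 - a < 8 / 3`, and `σ > 3 (1 - a) / 4`, `σ > 0`.
-/

set_option autoImplicit false

namespace Pool.Agent.Results.MP_3d7a54_an.DecimatedUniqueBelowSerrin

open MeasureTheory ProbabilityTheory Pool.Agent.N983.RT Pool.Agent.N983.WK

theorem result (a : ℝ) (ha : 0 ≤ a) (Ω : Type) [MeasurableSpace Ω] (μ : Measure Ω)
    [IsProbabilityMeasure μ] (Y : Sym2 Wv → Ω → ℝ) (hY : ∀ c, Measurable (Y c))
    (hi : iIndepFun Y μ)
    (hs : ∀ k, k ≠ 0 → μ {ω | Y s(k, -k) ω = 1} ≤ ENNReal.ofReal (nsq k ^ (-a / 2))) :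
    ∀ᵐ ω ∂μ, ∀ ν α : ℝ, 0 < ν → 1 / 2 < α → 5 / 4 - 3 * a / 4 < α →
      ∀ u₀ : Fld, Adm u₀ → (∃ C : ℝ, ∀ n, En 0 n u₀ ≤ C) → (∀ k, k ∉ kept Y ω → u₀ k = 0) →
        ∃ U : ℝ → Fld, U 0 = u₀ ∧ (∀ t, 0 ≤ t → ∀ k, k ∉ kept Y ω → U t k = 0) ∧
          (∀ τ, 0 < τ → IsSol (dec (kept Y ω)) ν α fun t => U (τ + t)) ∧
          ∀ σ T : ℝ, 0 < σ → max 0 ((3 - 3 * a) / 2) + max (1 - α) 0 < 2 * σ →
            ∀ u : ℝ → Fld, IsVW (dec (kept Y ω)) ν α σ T u → u 0 = u₀ →
              ∀ t ∈ Set.Icc 0 T, u t = U t :=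
  asm7_dec t_SUM t_ALG (t_EST t_SHL) t_ODE t_RHS t_CVB t_PRB t_TRB t_ANT t_BAL t_SQ t_MSB t_GRO
    t_STB t_FX1 t_EEQ t_ENT t_SMT t_CPT t_CS t_IND t_ESY t_TAIL t_LAT t_BCD t_VT t_VE a ha Ω μ Y
    hY hi hs

end Pool.Agent.Results.MP_3d7a54_an.DecimatedUniqueBelowSerrin
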