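import Pool.Agent.N983.RT.Asm2
import Pool.Agent.N983.RT.SUM
import Pool.Agent.N983.RT.ALG
import Pool.Agent.N983.RT.SHL
import Pool.Agent.N983.RT.EST
import Pool.Agent.N983.RT.APR2
import Pool.Agent.N983.RT.ODE
import Pool.Agent.N983.RT.RHS
import Pool.Agent.N983.RT.CMP
import Pool.Agent.N983.RT.UNQ
import Pool.Agent.N983.RT.HOE2
import Pool.Agent.N983.RT.UNI2
import Pool.Agent.N983.RT.DIG
import Pool.Agent.N983.RT.BCS2
import Pool.Agent.N983.RT.PNT
import Pool.Agent.N983.WK.Asm4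
import Pool.Agent.N983.WK.TRB
import Pool.Agent.N983.WK.CVB
import Pool.Agent.N983.WK.PRB
import Pool.Agent.N983.WK.ANT
import Pool.Agent.N983.WK.SQ
import Pool.Agent.N983.WK.MSB
import Pool.Agent.N983.WK.BAL
import Pool.Agent.N983.WK.EEQ
import Pool.Agent.N983.WK.GRO
import Pool.Agent.N983.WK.STB
import Pool.Agent.N983.WK.ENT
import Pool.Agent.N983.WK.SMT
import Pool.Agent.N983.WK.CPT
import Pool.Agent.N983.WK.FZ1
import Pool.Agent.N983.WK.FZ2
import Pool.Agent.N983.WK.SW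
import Pool.Agent.N983.WK.WSU
import Pool.Agent.N983.WK.VT
import Pool.Agent.N983.WK.VP
import Pool.Agent.N983.WK.VE

/-!
The Navier-Stokes equations on the torus `(ℝ / 2πℤ) ^ 3` with independent centred random
coefficients of the triad interactions: almost surely all weak solutions which are bounded in a
Sobolev space `H ^ σ` of positive order, and which have the same initial value, coincide, and they
are smooth for positive times. Neither the energy inequality nor finite dissipation is assumed.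
For `α = 1` every `σ > 0` is allowed.
-/

set_option autoImplicit false

namespace Pool.Agent.Results.MP_3d7a54_an.TriadsUniqueBelowSerrin

open MeasureTheory ProbabilityTheory Pool.Agent.N983.RT Pool.Agent.N983.WK

theorem result (Ω : Type) [MeasurableSpace Ω] (μ : Measure Ω) [IsProbabilityMeasure μ]
    (X : Sym2 (Finset Wv) → Ω → ℝ) (hX : ∀ c, Measurable (X c)) (hi : iIndepFun X μ)
    (hX1 : ∀ c, ∀ᵐ ω ∂μ, |X c ω| ≤ 1) (hX0 : ∀ c, ∫ ω, X c ω ∂μ = 0) :
    ∀ᵐ ω ∂μ, ∀ ν α : ℝ, 0 < ν → 1 / 2 < α →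
      ∀ u₀ : Fld, Adm u₀ → (∃ C : ℝ, ∀ n, En 0 n u₀ ≤ C) → ∃ U : ℝ → Fld, U 0 = u₀ ∧
        (∀ τ, 0 < τ → IsSol (sgn X ω) ν α fun t => U (τ + t)) ∧
        ∀ σ T : ℝ, 0 < σ → 1 < α + 2 * σ → ∀ u : ℝ → Fld, IsVW (sgn X ω) ν α σ T u →
          u 0 = u₀ → ∀ t ∈ Set.Icc 0 T, u t = U t :=
  asm4_rand t_SUM t_ALG (t_EST t_SHL) t_APR2 t_ODE t_RHS t_CMP t_UNQ t_UNI2 t_HOE2 t_DIG t_BCS2
    t_PNT t_CVB t_PRB t_TRB t_ANT t_BAL t_SQ t_MSB t_GRO t_STB t_FZ1 t_FZ2 t_EEQ t_ENT t_SMT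
    t_CPT t_SW t_WSU t_VT t_VP t_VE Ω μ X hX hi hX1 hX0

end Pool.Agent.Results.MP_3d7a54_an.TriadsUniqueBelowSerrin
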